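import Mathlib
import Pool.Agent.helper12.DD.Spec2

set_option autoImplicit false

open Pool.Agent.helper49.Blk

namespace Pool.Agent.DD

section

variable {K W E : Type} [Group K] [Group W] [Group E]

/-- the condition on the chain -/
def SQA_Ch (ω : W →* E) (S : Set (Subgroup W)) (e : E) : Prop :=
  ∀ P ∈ S, ∀ x y : W, ω y = e * ω x * e⁻¹ → (x ∈ P ↔ y ∈ P)

lemma SQA_Ch_inv {ω : W →* E} {S : Set (Subgroup W)} {e : E} (h : SQA_Ch ω S e) :
    SQA_Ch ω S e⁻¹ := by
  intro P hP x y hxy
  refine (h P hP y x ?_).symm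
  rw [hxy]
  group

lemma SQA_chain {κ : K →* W} {ω : W →* E}
    (hκ : Function.Injective κ) (hω : Function.Injective ω) (hn : (ω.comp κ).range.Normal)
    (C : List (Subgroup K)) (e : E) :
    SQA_Ch ω {P | P ∈ cW κ C} e ↔ SQA_Ch (ω.comp κ) {P | P ∈ C} e := by
  constructor
  · intro h P hP x y hxy
    have h1 : P.map κ ∈ {P | P ∈ cW κ C} := List.mem_map_of_mem hP
    have h2 := h (P.map κ) h1 (κ x) (κ y) hxy
    rwa [Subgroup.mem_map_iff_mem hκ, Subgroup.mem_map_iff_mem hκ] at h2
  · intro h P' hP' x y hxy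
    obtain ⟨P, hP, rfl⟩ := List.mem_map.1 hP'
    constructor
    · rintro ⟨x', hx', rfl⟩
      obtain ⟨y', hy'⟩ := hn.conj_mem _ ⟨x', rfl⟩ e
      have hy : κ y' = y := hω (by rw [hxy]; exact hy')
      exact ⟨y', (h P hP x' y' (by rw [hy']) ).1 hx', hy⟩
    · rintro ⟨y', hy', rfl⟩
      obtain ⟨x', hx'⟩ := hn.conj_mem _ ⟨y', rfl⟩ e⁻¹
      have hx : κ x' = x := hω (by
        have : ω x = e⁻¹ * ω (κ y') * e⁻¹⁻¹ := by rw [hxy]; group
        rw [this]; exact hx')
      refine ⟨x', (h P hP x' y' ?_).2 hy', hx⟩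
      show ω (κ y') = e * ω (κ x') * e⁻¹
      rw [hx, hxy]

lemma SQA_mem_NC {L : List (Subgroup W)} {x : W} :
    x ∈ NC L ↔ ∀ P ∈ L, ∀ z : W, z ∈ P ↔ x * z * x⁻¹ ∈ P := by
  unfold NC
  simp only [Subgroup.mem_iInf]
  constructor
  · intro h P hP z
    exact Subgroup.mem_normalizer_iff.1 (h P hP) z
  · intro h P hP
    exact Subgroup.mem_normalizer_iff.2 (h P hP)

lemma SQA_conj_mem {ω : W →* E} (hn : ω.range.Normal) {L : List (Subgroup W)}
    {e : E} (h : SQA_Ch ω {P | P ∈ L} e) {x y : W} (hx : x ∈ NC L) (hxy : ω y = e * ω x * e⁻¹) :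
    y ∈ NC L := by
  rw [SQA_mem_NC] at hx ⊢
  intro P hP z
  obtain ⟨z', hz'⟩ := hn.conj_mem _ ⟨z, rfl⟩ e⁻¹
  have h1 : ω z = e * ω z' * e⁻¹ := by rw [hz']; group
  have h2 : ω (y * z * y⁻¹) = e * ω (x * z' * x⁻¹) * e⁻¹ := by
    simp only [map_mul, map_inv, hxy, h1]
    group
  rw [← h P hP z' z h1, hx P hP z', h P hP _ _ h2]

/-- conjugation with `e` -/
lemma SQA_aut {ω : W →* E} (hω : Function.Injective ω) (hn : ω.range.Normal)
    {L : List (Subgroup W)} {e : E} (h : SQA_Ch ω {P | P ∈ L} e) :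
    ∃ α : NC L ≃* NC L, ∀ x : NC L, ω (α x : W) = e * ω (x : W) * e⁻¹ := by
  have ex : ∀ x : NC L, ∃ y : NC L, ω (y : W) = e * ω (x : W) * e⁻¹ := by
    intro x
    obtain ⟨y, hy⟩ := hn.conj_mem _ ⟨(x : W), rfl⟩ e
    exact ⟨⟨y, SQA_conj_mem hn h x.2 hy⟩, hy⟩
  have ex' : ∀ x : NC L, ∃ y : NC L, ω (y : W) = e⁻¹ * ω (x : W) * e := by
    intro x
    obtain ⟨y, hy⟩ := hn.conj_mem _ ⟨(x : W), rfl⟩ e⁻¹
    refine ⟨⟨y, SQA_conj_mem hn (SQA_Ch_inv h) x.2 hy⟩, ?_⟩
    rw [inv_inv] at hy
    exact hy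
  choose f hf using ex
  choose g hg using ex'
  have hinj : ∀ x y : NC L, ω (x : W) = ω (y : W) → x = y := fun x y hxy =>
    Subtype.ext (hω hxy)
  refine ⟨{ toFun := f, invFun := g, left_inv := ?_, right_inv := ?_, map_mul' := ?_ }, hf⟩
  · intro x
    apply hinj
    rw [hg, hf]
    group
  · intro x
    apply hinj
    rw [hf, hg]
    group
  · intro x y
    apply hinj
    rw [Subgroup.coe_mul, map_mul, hf, hf, hf, Subgroup.coe_mul, map_mul]
    group

end

theorem SQA (hSTS : STS_stmt) (hCLA : CLA_stmt) (hCHQ : CHQ_stmt) (hTRI : TRI_stmt)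
    (hIRF : IRF_stmt) : SQA_stmt := by
  intro p q m hp hq hqp hqm K W E _ _ _ _ _ κ ω V₀ hT C
  generalize hN : NC (cW κ C) = N
  intro hcard φ hφ ψ hψ
  generalize hj : κ.subgroupComap N = j
  intro hov hivt
  have hjc : ∀ x, (j x : W) = κ x := by
    intro x
    rw [← hj]
    rfl
  have hjinj : Function.Injective j := by
    intro x y hxy
    apply Subtype.ext
    apply hT.κinj
    rw [← hjc, ← hjc, hxy]
  have hjnor : j.range.Normal := by
    constructor
    rintro _ ⟨x, rfl⟩ n
    obtain ⟨y, hy⟩ := hT.κnor.conj_mem _ ⟨(x : K), rfl⟩ (n : W)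
    have hyN : κ y ∈ N := by
      rw [hy, ← hjc]
      exact (n * j x * n⁻¹).2
    refine ⟨⟨y, hyN⟩, ?_⟩
    apply Subtype.ext
    rw [hjc]
    show κ y = _
    rw [hy, ← hjc]
    rfl
  obtain ⟨hA1, -, hA3⟩ := hCLA (N.comap κ) N j hjinj hjnor q hq hcard ψ hψ hivt
  have hres : ∀ x, φ (j x) = ψ x := hA1 φ hφ hov
  have hclass : ∀ g h : N, φ (h * g * h⁻¹) = φ g := ((hIRF N).2 φ hφ).2
  -- the key claim
  have claim : ∀ e : E, Fixes ω {P | P ∈ cW κ C} N φ e ↔
      Fixes (ω.comp κ) {P | P ∈ C} (N.comap κ) ψ e := by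
    intro e
    constructor
    · rintro ⟨h1, h2⟩
      refine ⟨(SQA_chain hT.κinj hT.ωinj hT.ωκnor C e).1 h1, ?_⟩
      intro x y hxy
      rw [← hres x, ← hres y]
      exact h2 (j x) (j y) (by rw [hjc, hjc]; exact hxy)
    · rintro ⟨h1, h2⟩
      have h1' := (SQA_chain hT.κinj hT.ωinj hT.ωκnor C e).2 h1
      refine ⟨h1', ?_⟩
      have hex := SQA_aut hT.ωinj hT.ωnor h1'
      rw [hN] at hex
      obtain ⟨α, hα⟩ := hex
      -- the conjugate character
      have hφ' : (fun x => φ (α x)) ∈ Irr N := (hTRI N N α φ).1 hφ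
      have hαj : ∀ x : N.comap κ, φ (α (j x)) = ψ x := by
        intro x
        obtain ⟨y, hy⟩ := hT.ωκnor.conj_mem _ ⟨(x : K), rfl⟩ e
        have hy1 : κ y = (α (j x) : W) := hT.ωinj (by rw [hα, hjc]; exact hy)
        have hyN : y ∈ N.comap κ := by
          show κ y ∈ N
          rw [hy1]
          exact (α (j x)).2
        have hy2 : j ⟨y, hyN⟩ = α (j x) := Subtype.ext (by rw [hjc]; exact hy1)
        rw [← hy2, hres]
        exact h2 x ⟨y, hyN⟩ hy
      have hov' : Ovr j (fun x => φ (α x)) ψ := by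
        unfold Ovr at hov ⊢
        simp only [hαj]
        simpa only [hres] using hov
      obtain ⟨lam, hl1, hl2, hl3⟩ := hA3 φ hφ _ hφ' hov hov'
      have hlα : ∀ x : N, lam (α x) = lam x := by
        intro x
        obtain ⟨k, hk⟩ := hT.comm e (x : W)
        have hk1 : (α x : W) = κ k * (x : W) := hT.ωinj (by rw [hα]; exact hk)
        have hkN : k ∈ N.comap κ := by
          show κ k ∈ N
          have : κ k = (α x : W) * (x : W)⁻¹ := by rw [hk1]; group
          rw [this]
          exact N.mul_mem (α x).2 (N.inv_mem x.2)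
        have hk2 : α x = j ⟨k, hkN⟩ * x := Subtype.ext (by rw [Subgroup.coe_mul, hjc]; exact hk1)
        rw [hk2, map_mul, hl1, one_mul]
      have hpow : ∀ (n : ℕ) (x : N), φ ((α ^ n) x) = φ x * ((lam x : ℂˣ) : ℂ) ^ n := by
        intro n
        induction n with
        | zero => intro x; simp
        | succ n ih =>
          intro x
          rw [pow_succ, MulAut.mul_apply, ih (α x), hl3 x, hlα x, pow_succ]
          ring
      obtain ⟨w, hw⟩ := hT.pow e
      have hαn : ∀ (n : ℕ) (x : N), ω (((α ^ n) x : N) : W) = e ^ n * ω (x : W) * (e ^ n)⁻¹ := by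
        intro n
        induction n with
        | zero => intro x; simp
        | succ n ih =>
          intro x
          rw [pow_succ, MulAut.mul_apply, ih (α x), hα x, pow_succ]
          group
      have hchn : ∀ n : ℕ, SQA_Ch ω {P | P ∈ cW κ C} (e ^ n) := by
        intro n
        induction n with
        | zero =>
          intro P _ x y hxy
          have : y = x := hT.ωinj (by rw [hxy]; simp)
          rw [this]
        | succ n ih =>
          intro P hP x y hxy
          obtain ⟨z, hz⟩ := hT.ωnor.conj_mem _ ⟨x, rfl⟩ e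
          rw [h1' P hP x z hz]
          apply ih P hP z y
          rw [hxy, hz, pow_succ]
          group
      have hwN : w ∈ N := by
        rw [← hN, SQA_mem_NC]
        intro P hP z
        apply hchn m P hP
        rw [hw]
        simp
      have hm : ∀ x : N, φ ((α ^ m) x) = φ x := by
        intro x
        have : (α ^ m) x = (⟨w, hwN⟩ : N) * x * (⟨w, hwN⟩ : N)⁻¹ := by
          apply Subtype.ext
          apply hT.ωinj
          rw [hαn, hw]
          simp
        rw [this, hclass]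
      have hfin : ∀ x : N, φ (α x) = φ x := by
        intro x
        by_cases hx : φ x = 0
        · rw [hl3, hx, zero_mul]
        · have h3 := hpow m x
          rw [hm] at h3
          have h4 : ((lam x : ℂˣ) : ℂ) ^ m = 1 := by
            have h5 : φ x * (((lam x : ℂˣ) : ℂ) ^ m - 1) = 0 := by
              rw [mul_sub, ← h3]; ring
            rcases mul_eq_zero.1 h5 with h6 | h6
            · exact absurd h6 hx
            · exact sub_eq_zero.1 h6
          have h5 : (lam x) ^ m = 1 := by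
            apply Units.ext
            push_cast
            exact h4
          have h6 : (lam x) ^ q = 1 := hl2 x
          have h7 : lam x = 1 := by
            have h8 := pow_gcd_eq_one.2 ⟨h6, h5⟩
            rwa [Nat.Coprime.gcd_eq_one hqm, pow_one] at h8
          rw [hl3, h7]
          simp
      intro x y hxy
      have hy : y = α x := by
        apply Subtype.ext
        apply hT.ωinj
        rw [hα, hxy]
      rw [hy, hfin]
  -- N is not contained in K
  have hlt : ∃ n₀ : N, (n₀ : W) ∉ κ.range := by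
    by_contra hcon
    push Not at hcon
    have hsur : Function.Surjective j := by
      intro n
      obtain ⟨k, hk⟩ := hcon n
      have hkN : k ∈ N.comap κ := by
        show κ k ∈ N
        rw [hk]
        exact n.2
      exact ⟨⟨k, hkN⟩, Subtype.ext (by rw [hjc]; exact hk)⟩
    have h1 : Nat.card (N.comap κ) = Nat.card N := Nat.card_congr (Equiv.ofBijective j ⟨hjinj, hsur⟩)
    have h2 : 0 < Nat.card (N.comap κ) := Nat.card_pos
    have h3 : Nat.card N = q * Nat.card (N.comap κ) := hcard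
    rw [← h1] at h3
    have h4 := hq.one_lt
    nlinarith
  obtain ⟨n₀, hn₀⟩ := hlt
  have hKN : (N.comap κ) = NC C := by
    rw [← hN]
    exact (hCHQ p q hp hq hqp K W κ hT.κinj hT.κnor hT.card).2.1 C
  obtain ⟨⟨S', hS'⟩, -⟩ := hSTS K E (ω.comp κ) (hT.ωinj.comp hT.κinj) hT.ωκnor C (N.comap κ)
    hKN ψ
  -- N acts trivially
  have hNS : ∀ n : N, ω (n : W) ∈ S' := by
    intro n
    rw [hS', ← claim]
    constructor
    · intro P hP x y hxy
      have : y = (n : W) * x * (n : W)⁻¹ := hT.ωinj (by rw [hxy]; simp)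
      rw [this]
      have hn : (n : W) ∈ NC (cW κ C) := by rw [hN]; exact n.2
      exact SQA_mem_NC.1 hn P hP x
    · intro x y hxy
      have : y = n * x * n⁻¹ := by
        apply Subtype.ext
        apply hT.ωinj
        rw [hxy]
        simp
      rw [this, hclass]
  -- W = K N
  have hWKN : ∀ g : W, ∃ (k : K) (n : N), g = κ k * (n : W) := by
    have := hT.κnor
    have hidx : κ.range.index = q := by
      have h1 := Subgroup.card_mul_index κ.range
      have h2 : Nat.card κ.range = Nat.card K :=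
        (Nat.card_congr (MonoidHom.ofInjective hT.κinj).toEquiv).symm
      rw [h2, hT.card, mul_comm q] at h1
      exact Nat.eq_of_mul_eq_mul_left Nat.card_pos h1
    have htop : κ.range ⊔ N = ⊤ := by
      have h1 : (κ.range ⊔ N).index ∣ q := by
        rw [← hidx]
        exact Subgroup.index_dvd_of_le le_sup_left
      rcases (Nat.dvd_prime hq).1 h1 with h2 | h2
      · exact Subgroup.index_eq_one.1 h2
      · exfalso
        have h3 : κ.range.relIndex (κ.range ⊔ N) * (κ.range ⊔ N).index = κ.range.index :=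
          Subgroup.relIndex_mul_index le_sup_left
        rw [h2, hidx] at h3
        have h4 : κ.range.relIndex (κ.range ⊔ N) = 1 := by
          have := hq.pos
          nlinarith
        have h5 : κ.range ⊔ N ≤ κ.range := Subgroup.relIndex_eq_one.1 h4
        exact hn₀ (h5 (le_sup_right (a := κ.range) n₀.2))
    intro g
    have hg : g ∈ κ.range ⊔ N := by rw [htop]; exact Subgroup.mem_top g
    rw [Subgroup.mem_sup_of_normal_left] at hg
    obtain ⟨y, ⟨k, rfl⟩, z, hz, hyz⟩ := hg
    exact ⟨k, ⟨z, hz⟩, hyz.symm⟩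
  refine ⟨⟨?_, ?_⟩, ?_⟩
  · intro h e
    refine ⟨fun _ => ?_, fun _ => Subgroup.mem_top e⟩
    obtain ⟨g, hg⟩ := (h e).1 (Subgroup.mem_top e)
    obtain ⟨k, n, rfl⟩ := hWKN g
    rw [claim, ← hS'] at hg
    refine ⟨k, ?_⟩
    rw [← hS']
    have h1 := S'.mul_mem hg (S'.inv_mem (hNS n))
    have h2 : e * ω (κ k * (n : W)) * (ω (n : W))⁻¹ = e * (ω.comp κ) k := by
      rw [map_mul, MonoidHom.comp_apply]
      group
    rwa [h2] at h1
  · intro h e
    refine ⟨fun _ => ?_, fun _ => Subgroup.mem_top e⟩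
    obtain ⟨k, hk⟩ := (h e).1 (Subgroup.mem_top e)
    exact ⟨κ k, (claim _).2 hk⟩
  · intro h
    apply hn₀
    apply hT.V0i
    rw [h]
    refine ⟨1, ?_⟩
    rw [map_one, mul_one, ← hS']
    exact hNS n₀

end Pool.Agent.DD
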